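import Pool.Agent.H17.LM

namespace Pool.Agent.Results.MP_d16342_al.Neg

open Pool.Agent.H17.LM Set Filter Topology MeasureTheory UniformSpace
open scoped ENNReal symmDiff

universe v

/-- Bounded real functions on the reals. -/
abbrev E : Type := lp (fun _ : ℝ => ℝ) ∞

/-- Integer valued ones. -/
def Λ : AddSubgroup E where
  carrier := {v | ∀ i, ∃ n : ℤ, v i = n}
  zero_mem' := fun i => ⟨0, by simp⟩
  add_mem' := fun {a b} ha hb i => by
    obtain ⟨n, hn⟩ := ha i
    obtain ⟨m, hm⟩ := hb i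
    exact ⟨n + m, by simp [hn, hm]⟩
  neg_mem' := fun {a} ha i => by
    obtain ⟨n, hn⟩ := ha i
    exact ⟨-n, by simp [hn]⟩

lemma Λ_closed : IsClosed (Λ : Set E) := by
  have : (Λ : Set E) = ⋂ i, (fun v : E => v i) ⁻¹' range ((↑) : ℤ → ℝ) := by
    ext v
    simp only [mem_iInter, mem_preimage, mem_range, eq_comm (b := v _)]
    rfl
  rw [this]
  exact isClosed_iInter fun i => Int.isClosedEmbedding_coe_real.isClosed_range.preimage
    ((continuous_apply i).comp lp.uniformContinuous_coe.continuous)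

/-- Integrable functions with values in `Λ`. -/
def HH : AddSubgroup (Lp E 1 (volume : Measure ℝ)) where
  carrier := {f | ∀ᵐ x, f x ∈ Λ}
  zero_mem' := (Lp.coeFn_zero E 1 volume).mono fun x hx => by rw [hx]; exact Λ.zero_mem
  add_mem' := fun {a b} ha hb => by
    show ∀ᵐ x, (a + b) x ∈ Λ
    filter_upwards [Lp.coeFn_add a b, ha, hb] with x h1 h2 h3
    rw [h1]; exact Λ.add_mem h2 h3
  neg_mem' := fun {a} ha => by
    show ∀ᵐ x, (-a) x ∈ Λ
    filter_upwards [Lp.coeFn_neg a, ha] with x h1 h2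
    rw [h1]; exact Λ.neg_mem h2

lemma HH_closed : IsClosed (HH : Set (Lp E 1 (volume : Measure ℝ))) := by
  refine IsSeqClosed.isClosed fun u f hu hf => ?_
  obtain ⟨ns, -, h⟩ := (tendstoInMeasure_of_tendsto_Lp hf).exists_seq_tendsto_ae
  filter_upwards [h, ae_all_iff.2 fun n => hu (ns n)] with x h1 h2
  exact Λ_closed.mem_of_tendsto h1 (Eventually.of_forall h2)

instance : CompleteSpace HH := HH_closed.completeSpace_coe

lemma h1 (n : ℕ) (h : HH) : ‖n • h‖ = n * ‖h‖ := by
  show ‖n • h.1‖ = n * ‖h.1‖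
  rw [← Nat.cast_smul_eq_nsmul ℝ, norm_smul, Real.norm_natCast]

lemma h2 (p : Nat.Primes) : IsClosed (mul HH p : Set HH) := by
  refine AntilipschitzWith.isClosed_range (K := 1) (f := (nsmulAddMonoidHom (p : ℕ) : HH →+ HH))
    (AddMonoidHomClass.antilipschitz_of_bound _ fun x => ?_)
    (uniformContinuous_const_smul (p : ℕ))
  show _ ≤ _ * ‖(p : ℕ) • x‖
  rw [h1]
  have : (1 : ℝ) ≤ (p : ℕ) := by exact_mod_cast p.2.one_le
  simpa using le_mul_of_one_le_left (norm_nonneg x) this

lemma h3 (h : HH) (hh : ∀ p : Nat.Primes, h ∈ mul HH p) : h = 0 := by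
  choose g hg using hh
  refine Subtype.ext (Lp.ext ?_)
  have e1 : ∀ p : Nat.Primes, ∀ᵐ x, ∃ v ∈ Λ, h.1 x = ((p : ℕ) : ℝ) • v := fun p => by
    filter_upwards [(g p).2, Lp.coeFn_smul ((p : ℕ) : ℝ) (g p).1] with x a b
    refine ⟨_, a, ?_⟩
    rw [← hg p]
    show ((p : ℕ) • (g p).1 : Lp E 1 volume) x = _
    rw [← Nat.cast_smul_eq_nsmul ℝ, b]
    rfl
  filter_upwards [ae_all_iff.2 e1, h.2, Lp.coeFn_zero E 1 volume] with x a b c
  refine Eq.trans (lp.ext (funext fun i => ?_)) c.symm
  obtain ⟨n, hn⟩ := b i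
  obtain ⟨p, hp, hp'⟩ := Nat.exists_infinite_primes (n.natAbs + 1)
  obtain ⟨v, hv, e⟩ := a ⟨p, hp'⟩
  obtain ⟨m, hm⟩ := hv i
  have e2 : n = p * m := by
    have := congrArg (fun w : E => w i) e
    simp only [lp.coeFn_smul, Pi.smul_apply, hn, hm, smul_eq_mul] at this
    exact_mod_cast this
  have e3 : n = 0 := Int.eq_zero_of_dvd_of_natAbs_lt_natAbs ⟨m, e2⟩ (by simp; omega)
  simp [hn, e3]

open Classical in
/-- Unit vectors. -/
noncomputable def e (i : ℝ) : E := lp.single ∞ i 1

/-- Curves starting at zero. -/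
noncomputable def γ (i t : ℝ) : HH :=
  ⟨indicatorConstLp 1 (measurableSet_Ioc (a := 0) (b := t)) (by simp) (e i), by
    filter_upwards [indicatorConstLp_coeFn (p := 1) (hs := measurableSet_Ioc (a := 0) (b := t))
      (hμs := by simp) (c := e i) (μ := volume)] with x hx
    rw [hx]
    by_cases h : x ∈ Ioc 0 t
    · rw [indicator_of_mem h]
      intro j
      by_cases c : j = i
      · exact ⟨1, by simp [e, c]⟩
      · exact ⟨0, by simp [e, lp.single_apply, c]⟩
    · rw [indicator_of_notMem h]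
      exact Λ.zero_mem⟩

lemma γ_cont (i : ℝ) : Continuous (γ i) := by
  refine Continuous.subtype_mk (continuous_indicatorConstLp_set (by simp) fun x => ?_) _
  refine tendsto_of_tendsto_of_tendsto_of_le_of_le (h := fun y => ENNReal.ofReal |y - x|)
    tendsto_const_nhds ?_ (fun _ => zero_le) fun y => ?_
  · have : Continuous fun y => ENNReal.ofReal |y - x| :=
      ENNReal.continuous_ofReal.comp (by fun_prop)
    simpa using this.tendsto x
  · show _ ≤ ENNReal.ofReal |y - x|
    rw [← Real.volume_interval]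
    refine measure_mono fun z hz => ?_
    simp only [mem_symmDiff, mem_Ioc, not_and, not_le] at hz
    rcases hz with h | h
    · exact mem_uIcc_of_le (h.2 h.1.1).le h.1.2
    · exact mem_uIcc_of_ge (h.2 h.1.1).le h.1.2

lemma γ_zero (i : ℝ) : γ i 0 = 0 := by
  rw [← norm_eq_zero]
  show ‖(γ i 0).1‖ = 0
  simp only [γ]
  rw [norm_indicatorConstLp (by simp) (by simp)]
  simp

lemma γ_sep {i j : ℝ} (h : i ≠ j) : 1 ≤ dist (γ i 1) (γ j 1) := by
  rw [dist_eq_norm]
  show 1 ≤ ‖(γ i 1).1 - (γ j 1).1‖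
  simp only [γ]
  rw [indicatorConstLp_sub, norm_indicatorConstLp (by simp) (by simp)]
  have := lp.norm_apply_le_norm (by simp) (e i - e j) i
  simpa [e, lp.single_apply, h] using this

theorem result : ∃ (G : Type) (_ : AddCommGroup G) (_ : UniformSpace G) (_ : IsUniformAddGroup G),
    T2Space G ∧ (∀ u : ℕ → G, CauchySeq u → ∃ x, Tendsto u atTop (𝓝 x)) ∧ LocMin.{v} G ∧
      connectedComponent (0 : G) = {0} ∧
      ¬ SecondCountableTopology (connectedComponent (0 : Completion G)) := by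
  refine ⟨G HH, inferInstance, inferInstance, inferInstance, inferInstance, fun u hu => ?_,
    locMin h1, comp0 h3, fun hc => ?_⟩
  · obtain ⟨x, hx⟩ := cauchySeq_tendsto_of_complete (uniformContinuous_subtype_val.comp_cauchySeq hu)
    exact ⟨⟨x, seqClosed h2 (fun n => (u n).2) hx⟩, tendsto_subtype_rng.2 hx⟩
  let pk : AbstractCompletion (G HH) := ⟨HH × K HH, Subtype.val, inferInstance, inferInstance,
    inferInstance, isUniformEmbedding_subtype_val.isUniformInducing, dense.denseRange_val⟩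
  let φ : (HH × K HH) ≃ᵤ Completion (G HH) := pk.compareEquiv Completion.cPkg
  have h0 : φ 0 = 0 := pk.compare_coe Completion.cPkg 0
  have hm : ∀ i, φ (γ i 1, 0) ∈ connectedComponent (0 : Completion (G HH)) := fun i => by
    have c : Continuous fun t => φ (γ i t, 0) := φ.continuous.comp ((γ_cont i).prodMk continuous_const)
    have := (isConnected_range c).subset_connectedComponent (x := 0)
      ⟨0, by show φ (γ i 0, 0) = 0; rw [γ_zero]; exact h0⟩
    exact this ⟨1, rfl⟩
  let ψ : connectedComponent (0 : Completion (G HH)) → HH := fun z => (φ.symm z.1).1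
  have hψ : Continuous ψ := (φ.symm.continuous.comp continuous_subtype_val).fst
  refine not_countable (α := ℝ) (Pairwise.countable_of_isOpen_disjoint
    (s := fun i => ψ ⁻¹' Metric.ball (γ i 1) (1 / 2)) (fun i j hij => ?_)
    (fun i => Metric.isOpen_ball.preimage hψ) fun i => ⟨⟨_, hm i⟩, by simp [ψ]⟩)
  exact (Metric.ball_disjoint_ball (by linarith [γ_sep hij])).preimage ψ

end Pool.Agent.Results.MP_d16342_al.Neg
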